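import Pool.Agent.Helper21.LQ.Defs

set_option autoImplicit false

/-!
# LQ, module RST: colouring the edges between light vertices one by one
-/

namespace Pool.Agent.Helper21.LQ

open Finset

section rst
variable {R Γ : Type} [DecidableEq R] [DecidableEq Γ]

/-- One term of the load. -/
noncomputable def rst_tm (v w : ℕ → R) (K : ℕ → Finset Γ) (De : ℕ → ℕ) (X : R → Γ → ℝ) (u : R)
    (γ : Γ) (j : ℕ) : ℝ :=
  (if v j = u ∧ γ ∈ K j then X (w j) γ / De j else 0) +
    (if w j = u ∧ γ ∈ K j then X (v j) γ / De j else 0)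

/-- Weight of the edge `i` if it joins `u` and `x`. -/
noncomputable def rst_c (v w : ℕ → R) (De : ℕ → ℕ) (u x : R) (i : ℕ) : ℝ :=
  ((if v i = u ∧ x = w i then 1 else 0) + (if w i = u ∧ x = v i then 1 else 0)) / De i

/-- Weight of the edge `j` if it contains `x`. -/
noncomputable def rst_S (v w : ℕ → R) (De : ℕ → ℕ) (x : R) (j : ℕ) : ℝ :=
  ((if v j = x then 1 else 0) + (if w j = x then 1 else 0)) / De j

theorem rst_and (p q : Prop) [Decidable p] [Decidable q] :
    (if p ∧ q then (1 : ℝ) else 0) = (if p then 1 else 0) * (if q then 1 else 0) := by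
  by_cases hp : p <;> by_cases hq : q <;> simp [hp, hq]

theorem rst_c_nonneg (v w : ℕ → R) (De : ℕ → ℕ) (u x : R) (i : ℕ) : 0 ≤ rst_c v w De u x i := by
  unfold rst_c
  apply div_nonneg _ (Nat.cast_nonneg _)
  split_ifs <;> norm_num

theorem rst_S_nonneg (v w : ℕ → R) (De : ℕ → ℕ) (x : R) (i : ℕ) : 0 ≤ rst_S v w De x i := by
  unfold rst_S
  apply div_nonneg _ (Nat.cast_nonneg _)
  split_ifs <;> norm_num

theorem rst_tm_nonneg (v w : ℕ → R) (K : ℕ → Finset Γ) (De : ℕ → ℕ) (X : R → Γ → ℝ)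
    (hX : ∀ u γ, 0 ≤ X u γ) (u : R) (γ : Γ) (j : ℕ) : 0 ≤ rst_tm v w K De X u γ j := by
  unfold rst_tm
  have h1 := div_nonneg (hX (w j) γ) (Nat.cast_nonneg (α := ℝ) (De j))
  have h2 := div_nonneg (hX (v j) γ) (Nat.cast_nonneg (α := ℝ) (De j))
  split_ifs <;> linarith

theorem rst_load (M : ℕ) (v w : ℕ → R) (K : ℕ → Finset Γ) (De : ℕ → ℕ) (X : R → Γ → ℝ) (u : R)
    (γ : Γ) : load M v w K De X u γ = ∑ j ∈ Ico 0 M, rst_tm v w K De X u γ j := by
  unfold load rst_tm
  rw [range_eq_Ico]

theorem rst_S_sum (M : ℕ) (v w : ℕ → R) (De : ℕ → ℕ) (hvw : ∀ j < M, v j ≠ w j)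
    (hdeg : ∀ u, ∑ j ∈ range M, (if v j = u ∨ w j = u then 1 / (De j : ℝ) else 0) ≤ 1) (x : R) :
    ∑ j ∈ range M, rst_S v w De x j ≤ 1 := by
  refine le_trans (le_of_eq (sum_congr rfl fun j hj => ?_)) (hdeg x)
  have h := hvw j (mem_range.1 hj)
  unfold rst_S
  by_cases h1 : v j = x
  · have h2 : ¬ w j = x := fun h2 => h (h1.trans h2.symm)
    simp [h1, h2]
  · by_cases h2 : w j = x <;> simp [h1, h2]

theorem rst_cS (M : ℕ) (v w : ℕ → R) (De : ℕ → ℕ) (hvw : ∀ j < M, v j ≠ w j)
    (hdeg : ∀ u, ∑ j ∈ range M, (if v j = u ∨ w j = u then 1 / (De j : ℝ) else 0) ≤ 1) (u : R) :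
    ∑ j ∈ range M, (∑ i ∈ range M, (rst_c v w De u (v j) i + rst_c v w De u (w j) i)) / De j
      ≤ 1 := by
  have hS := rst_S_sum M v w De hvw hdeg
  calc ∑ j ∈ range M, (∑ i ∈ range M, (rst_c v w De u (v j) i + rst_c v w De u (w j) i)) / De j
      = ∑ i ∈ range M, ∑ j ∈ range M,
        (rst_c v w De u (v j) i + rst_c v w De u (w j) i) / De j := by
        rw [sum_comm]
        exact sum_congr rfl fun j _ => by rw [sum_div]
    _ = ∑ i ∈ range M, ((if v i = u then 1 else 0) / De i * ∑ j ∈ range M, rst_S v w De (w i) j +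
          (if w i = u then 1 else 0) / De i * ∑ j ∈ range M, rst_S v w De (v i) j) := by
        refine sum_congr rfl fun i _ => ?_
        rw [mul_sum, mul_sum, ← sum_add_distrib]
        refine sum_congr rfl fun j _ => ?_
        unfold rst_c rst_S
        simp only [rst_and]
        ring
    _ ≤ ∑ i ∈ range M, rst_S v w De u i := by
        refine sum_le_sum fun i _ => ?_
        have h1 : 0 ≤ (if v i = u then (1 : ℝ) else 0) / De i :=
          div_nonneg (by split_ifs <;> norm_num) (Nat.cast_nonneg _)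
        have h2 : 0 ≤ (if w i = u then (1 : ℝ) else 0) / De i :=
          div_nonneg (by split_ifs <;> norm_num) (Nat.cast_nonneg _)
        have h3 := mul_le_mul_of_nonneg_left (hS (w i)) h1
        have h4 := mul_le_mul_of_nonneg_left (hS (v i)) h2
        unfold rst_S at h3 h4 ⊢
        rw [add_div]
        linarith
    _ ≤ 1 := hS u

theorem rst_c_le (M : ℕ) (v w : ℕ → R) (K : ℕ → Finset Γ) (De : ℕ → ℕ) (Dmin : ℝ)
    (hD : 0 < Dmin) (hj : ∀ j < M, v j ≠ w j ∧ (K j).card = De j ∧ Dmin ≤ De j)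
    (hdist : ∀ i < M, ∀ j < M, i ≠ j →
      ¬ ((v i = v j ∧ w i = w j) ∨ (v i = w j ∧ w i = v j)))
    (u x : R) (γ : Γ) (S : Finset ℕ) (hS : S ⊆ range M) :
    Dmin * ∑ i ∈ S, (if γ ∈ K i then rst_c v w De u x i else 0) ≤ 1 := by
  by_cases h : ∃ i₀ ∈ S, ((v i₀ = u ∧ x = w i₀) ∨ (w i₀ = u ∧ x = v i₀))
  · obtain ⟨i₀, hi₀, hc⟩ := h
    have hi₀M := mem_range.1 (hS hi₀)
    have hother : ∀ i ∈ S, i ≠ i₀ → (if γ ∈ K i then rst_c v w De u x i else 0) = 0 := by
      intro i hi hne
      have hiM := mem_range.1 (hS hi)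
      have hd := hdist i hiM i₀ hi₀M hne
      have h1 : ¬ (v i = u ∧ x = w i) := by
        rintro ⟨a, b⟩
        apply hd
        rcases hc with ⟨c, d⟩ | ⟨c, d⟩
        · exact Or.inl ⟨a.trans c.symm, b.symm.trans d⟩
        · exact Or.inr ⟨a.trans c.symm, b.symm.trans d⟩
      have h2 : ¬ (w i = u ∧ x = v i) := by
        rintro ⟨a, b⟩
        apply hd
        rcases hc with ⟨c, d⟩ | ⟨c, d⟩
        · exact Or.inr ⟨b.symm.trans d, a.trans c.symm⟩
        · exact Or.inl ⟨b.symm.trans d, a.trans c.symm⟩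
      unfold rst_c
      simp [h1, h2]
    rw [sum_eq_single_of_mem i₀ hi₀ (fun i hi hne => hother i hi hne)]
    have hne := (hj i₀ hi₀M).1
    have hDe := (hj i₀ hi₀M).2.2
    have hDe0 : (0 : ℝ) < De i₀ := lt_of_lt_of_le hD hDe
    have hle : rst_c v w De u x i₀ ≤ 1 / De i₀ := by
      unfold rst_c
      apply div_le_div_of_nonneg_right _ hDe0.le
      by_cases h1 : v i₀ = u ∧ x = w i₀
      · have h2 : ¬ (w i₀ = u ∧ x = v i₀) := by
          rintro ⟨a, _⟩
          exact hne (h1.1.trans a.symm)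
        simp [h1.1, h1.2]
        by_cases h3 : w i₀ = u
        · exact absurd (h1.1.trans h3.symm) hne
        · simp [h3]
      · rw [if_neg h1]
        split_ifs <;> norm_num
    have hle2 : (if γ ∈ K i₀ then rst_c v w De u x i₀ else 0) ≤ 1 / De i₀ := by
      split_ifs
      · exact hle
      · positivity
    calc Dmin * (if γ ∈ K i₀ then rst_c v w De u x i₀ else 0) ≤ Dmin * (1 / De i₀) :=
          mul_le_mul_of_nonneg_left hle2 hD.le
      _ = Dmin / De i₀ := by ring
      _ ≤ 1 := (div_le_one hDe0).2 hDe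
  · have h0 : ∑ i ∈ S, (if γ ∈ K i then rst_c v w De u x i else 0) = 0 := by
      refine sum_eq_zero fun i hi => ?_
      have h1 : ¬ (v i = u ∧ x = w i) := fun h1 => h ⟨i, hi, Or.inl h1⟩
      have h2 : ¬ (w i = u ∧ x = v i) := fun h1 => h ⟨i, hi, Or.inr h1⟩
      unfold rst_c
      simp [h1, h2]
    rw [h0]
    norm_num

theorem rst_xnew_zero (v w : R) (p : Γ → ℝ) (X : R → Γ → ℝ) (g : Γ) (u : R) (γ : Γ)
    (h : X u γ = 0) : xnew v w p X g u γ = 0 := by
  unfold xnew
  rw [h]
  simp

theorem rst_xnew_other (v w : R) (p : Γ → ℝ) (X : R → Γ → ℝ) (g : Γ) (u : R) (γ : Γ)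
    (h1 : u ≠ v) (h2 : u ≠ w) : xnew v w p X g u γ = X u γ := by
  unfold xnew
  simp [h1, h2]

/-- The change of the load. -/
theorem rst_diff (v w : ℕ → R) (K : ℕ → Finset Γ) (De : ℕ → ℕ) (X : R → Γ → ℝ) (p : Γ → ℝ)
    (g : Γ) (j : ℕ) (hvw : v j ≠ w j) (u : R) (γ : Γ) (S : Finset ℕ) :
    ∑ i ∈ S, rst_tm v w K De (xnew (v j) (w j) p X g) u γ i - ∑ i ∈ S, rst_tm v w K De X u γ i =
      (∑ i ∈ S, (if γ ∈ K i then rst_c v w De u (v j) i else 0)) *
        (xnew (v j) (w j) p X g (v j) γ - X (v j) γ) +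
      (∑ i ∈ S, (if γ ∈ K i then rst_c v w De u (w j) i else 0)) *
        (xnew (v j) (w j) p X g (w j) γ - X (w j) γ) := by
  have key : ∀ x, xnew (v j) (w j) p X g x γ - X x γ =
      (if v j = x then 1 else 0) * (xnew (v j) (w j) p X g (v j) γ - X (v j) γ) +
      (if w j = x then 1 else 0) * (xnew (v j) (w j) p X g (w j) γ - X (w j) γ) := by
    intro x
    by_cases h1 : v j = x
    · have h2 : ¬ w j = x := fun h2 => hvw (h1.trans h2.symm)
      rw [if_pos h1, if_neg h2, h1]
      ring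
    · by_cases h2 : w j = x
      · rw [if_neg h1, if_pos h2, h2]
        ring
      · rw [if_neg h1, if_neg h2, rst_xnew_other _ _ _ _ _ _ _ (Ne.symm h1) (Ne.symm h2)]
        ring
  rw [← sum_sub_distrib, sum_mul, sum_mul, ← sum_add_distrib]
  refine sum_congr rfl fun i _ => ?_
  unfold rst_tm rst_c
  by_cases hγ : γ ∈ K i
  · simp only [hγ, and_true, if_true]
    have hw := key (w i)
    have hv := key (v i)
    simp only [rst_and]
    have e1 : ∀ (b : Prop) [Decidable b] (y z : ℝ),
        (if b then y / (De i : ℝ) else 0) - (if b then z / (De i : ℝ) else 0) =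
          (if b then 1 else 0) * (y - z) / De i := by
      intro b _ y z
      by_cases hb : b
      · simp only [if_pos hb]; ring
      · simp only [if_neg hb]; ring
    have e2 := e1 (v i = u) (xnew (v j) (w j) p X g (w i) γ) (X (w i) γ)
    have e3 := e1 (w i = u) (xnew (v j) (w j) p X g (v i) γ) (X (v i) γ)
    rw [hw] at e2
    rw [hv] at e3
    rw [add_sub_add_comm, e2, e3]
    ring
  · simp [hγ]

/-- The invariant. -/
structure rst_P (v w : ℕ → R) (K : ℕ → Finset Γ) (X₀ : R → Γ → ℝ) (δ : ℝ) (j : ℕ)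
    (s : (R → Γ → ℝ) × (R → Γ → ℝ) × (ℕ → Option Γ)) : Prop where
  used : ∀ i < j, ∃ γ ∈ K i, s.2.2 i = some γ ∧ X₀ (v i) γ ≠ 0 ∧ X₀ (w i) γ ≠ 0 ∧
    s.1 (v i) γ = 0 ∧ s.1 (w i) γ = 0
  ne : ∀ i < j, ∀ i' < j, i ≠ i' → (v i = v i' ∨ v i = w i' ∨ w i = v i' ∨ w i = w i') →
    s.2.2 i ≠ s.2.2 i'
  zero : ∀ u γ, X₀ u γ = 0 → s.1 u γ = 0
  nonneg : ∀ u γ, 0 ≤ s.2.1 u γ
  upd : ∀ u γ, s.1 u γ = 0 ∨
    (1 ≤ s.1 u γ ∧ 1 / X₀ u γ - (1 + 4 * δ) * s.2.1 u γ ≤ 1 / s.1 u γ)

theorem rst_P_step (v w : ℕ → R) (K : ℕ → Finset Γ) (De : ℕ → ℕ) (X₀ : R → Γ → ℝ) (δ : ℝ) (j : ℕ)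
    (X F : R → Γ → ℝ) (g : ℕ → Option Γ) (hP : rst_P v w K X₀ δ j (X, F, g))
    (hvw : v j ≠ w j) (p : Γ → ℝ) (hsupp : ∀ γ, γ ∉ K j → p γ = 0)
    (hne : ∀ γ, p γ ≠ 0 → X (v j) γ ≠ 0 ∧ X (w j) γ ≠ 0)
    (hu1 : ∀ g γ b, (X (v j) γ = 0 ∨ (1 ≤ X (v j) γ ∧ b ≤ 1 / X (v j) γ)) →
      (xnew (v j) (w j) p X g (v j) γ = 0 ∨ (1 ≤ xnew (v j) (w j) p X g (v j) γ ∧
        b - (1 + 4 * δ) * (if γ ∈ K j then X (w j) γ / (De j : ℝ) else 0) ≤
          1 / xnew (v j) (w j) p X g (v j) γ)))
    (hu2 : ∀ g γ b, (X (w j) γ = 0 ∨ (1 ≤ X (w j) γ ∧ b ≤ 1 / X (w j) γ)) →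
      (xnew (v j) (w j) p X g (w j) γ = 0 ∨ (1 ≤ xnew (v j) (w j) p X g (w j) γ ∧
        b - (1 + 4 * δ) * (if γ ∈ K j then X (v j) γ / (De j : ℝ) else 0) ≤
          1 / xnew (v j) (w j) p X g (w j) γ)))
    (a : Γ) (ha : p a ≠ 0) :
    rst_P v w K X₀ δ (j + 1) (xnew (v j) (w j) p X a,
      (fun u γ => F u γ + rst_tm v w K De X u γ j), Function.update g j (some a)) := by
  have hX0 : ∀ u γ, 0 ≤ X u γ := by
    intro u γ
    rcases hP.upd u γ with h | h
    · exact le_of_eq h.symm
    · exact le_trans zero_le_one h.1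
  have haK : a ∈ K j := by
    by_contra h
    exact ha (hsupp a h)
  obtain ⟨hva, hwa⟩ := hne a ha
  have hzv : xnew (v j) (w j) p X a (v j) a = 0 := by unfold xnew; simp
  have hzw : xnew (v j) (w j) p X a (w j) a = 0 := by unfold xnew; simp
  -- the new colour differs from the colours of the previous adjacent edges
  have hnew : ∀ i < j, (v i = v j ∨ v i = w j ∨ w i = v j ∨ w i = w j) → g i ≠ some a := by
    intro i hi hsh hgi
    obtain ⟨γ, _, h2, _, _, h5, h6⟩ := hP.used i hi
    have hγ : γ = a := by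
      have : some γ = some a := by rw [← hgi]; exact h2.symm
      exact Option.some.inj this
    subst hγ
    rcases hsh with h | h | h | h
    · exact hva (by rw [← h]; exact h5)
    · exact hwa (by rw [← h]; exact h5)
    · exact hva (by rw [← h]; exact h6)
    · exact hwa (by rw [← h]; exact h6)
  refine ⟨?_, ?_, ?_, ?_, ?_⟩
  · intro i hi
    rcases Nat.lt_succ_iff_lt_or_eq.1 hi with h | h
    · obtain ⟨γ, h1, h2, h3, h4, h5, h6⟩ := hP.used i h
      refine ⟨γ, h1, ?_, h3, h4, rst_xnew_zero _ _ _ _ _ _ _ h5, rst_xnew_zero _ _ _ _ _ _ _ h6⟩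
      show Function.update g j (some a) i = some γ
      rw [Function.update_of_ne (Nat.ne_of_lt h)]
      exact h2
    · subst h
      refine ⟨a, haK, ?_, ?_, ?_, hzv, hzw⟩
      · show Function.update g i (some a) i = some a
        rw [Function.update_self]
      · intro h; exact hva (hP.zero _ _ h)
      · intro h; exact hwa (hP.zero _ _ h)
  · intro i hi i' hi' hne' hsh
    show Function.update g j (some a) i ≠ Function.update g j (some a) i'
    rcases Nat.lt_succ_iff_lt_or_eq.1 hi with h | h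
    · rw [Function.update_of_ne (Nat.ne_of_lt h)]
      rcases Nat.lt_succ_iff_lt_or_eq.1 hi' with h' | h'
      · rw [Function.update_of_ne (Nat.ne_of_lt h')]
        exact hP.ne i h i' h' hne' hsh
      · subst h'
        rw [Function.update_self]
        exact hnew i h hsh
    · subst h
      rw [Function.update_self]
      rcases Nat.lt_succ_iff_lt_or_eq.1 hi' with h' | h'
      · rw [Function.update_of_ne (Nat.ne_of_lt h')]
        refine (hnew i' h' ?_).symm
        rcases hsh with h | h | h | h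
        · exact Or.inl h.symm
        · exact Or.inr (Or.inr (Or.inl h.symm))
        · exact Or.inr (Or.inl h.symm)
        · exact Or.inr (Or.inr (Or.inr h.symm))
      · exact absurd h'.symm hne'
  · intro u γ h
    exact rst_xnew_zero _ _ _ _ _ _ _ (hP.zero u γ h)
  · intro u γ
    exact add_nonneg (hP.nonneg u γ) (rst_tm_nonneg v w K De X hX0 u γ j)
  · intro u γ
    show xnew (v j) (w j) p X a u γ = 0 ∨ (1 ≤ xnew (v j) (w j) p X a u γ ∧
      1 / X₀ u γ - (1 + 4 * δ) * (F u γ + rst_tm v w K De X u γ j) ≤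
        1 / xnew (v j) (w j) p X a u γ)
    by_cases h1 : u = v j
    · subst h1
      have h := hu1 a γ (1 / X₀ (v j) γ - (1 + 4 * δ) * F (v j) γ) (hP.upd (v j) γ)
      have ht : rst_tm v w K De X (v j) γ j =
          (if γ ∈ K j then X (w j) γ / (De j : ℝ) else 0) := by
        unfold rst_tm
        simp [hvw.symm]
      rw [ht]
      rcases h with h | h
      · exact Or.inl h
      · refine Or.inr ⟨h.1, ?_⟩
        linarith [h.2]
    · by_cases h2 : u = w j
      · subst h2
        have h := hu2 a γ (1 / X₀ (w j) γ - (1 + 4 * δ) * F (w j) γ) (hP.upd (w j) γ)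
        have ht : rst_tm v w K De X (w j) γ j =
            (if γ ∈ K j then X (v j) γ / (De j : ℝ) else 0) := by
          unfold rst_tm
          simp [hvw]
        rw [ht]
        rcases h with h | h
        · exact Or.inl h
        · refine Or.inr ⟨h.1, ?_⟩
          linarith [h.2]
      · rw [rst_xnew_other _ _ _ _ _ _ _ h1 h2]
        have ht : rst_tm v w K De X u γ j = 0 := by
          unfold rst_tm
          simp [Ne.symm h1, Ne.symm h2]
        rw [ht, add_zero]
        exact hP.upd u γ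

end rst

/-- Module RST. -/
theorem st_RST (hPR : ST_PROC) (hRS : ST_RSTEP) : ST_RST := by
  intro R Γ _ _ _ _ M v w K De X₀ Xm δ Dmin LN hXm hδ hδ8 hLN hcount hbig hj hdist hdeg hX₀ hedg
  have hXm0 : 0 < Xm := by linarith
  have hX6 : (1 : ℝ) ≤ Xm ^ 6 := one_le_pow₀ hXm
  have hD : 0 < Dmin := by
    by_contra h
    have h1 := mul_nonpos_of_nonneg_of_nonpos (sq_nonneg δ) (not_lt.1 h)
    have h2 : 0 < 64 * Xm ^ 6 * LN := by positivity
    linarith
  obtain ⟨lam, hlam⟩ : ∃ l : ℝ, l = δ / (32 * Xm ^ 6) := ⟨_, rfl⟩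
  have hlam0 : 0 < lam := by rw [hlam]; positivity
  have hlamX : lam * (32 * Xm ^ 6) = δ := by rw [hlam]; field_simp
  have hpow : ∀ n ≤ 6, Xm ^ n ≤ Xm ^ 6 := fun n hn => pow_le_pow_right₀ hXm hn
  have hlam1 : |lam| * (4 * Xm) ≤ 1 := by
    rw [abs_of_pos hlam0]
    have h1 := hpow 1 (by norm_num)
    rw [pow_one] at h1
    have h2 : lam * (4 * Xm) ≤ lam * (32 * Xm ^ 6) :=
      mul_le_mul_of_nonneg_left (by nlinarith) hlam0.le
    linarith
  have hlam2 : |-lam| * (2 * Xm ^ 2) ≤ 1 := by
    rw [abs_neg, abs_of_pos hlam0]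
    have h1 := hpow 2 (by norm_num)
    have h2 : lam * (2 * Xm ^ 2) ≤ lam * (32 * Xm ^ 6) :=
      mul_le_mul_of_nonneg_left (by nlinarith) hlam0.le
    linarith
  have hvw := fun j hjM => (hj j hjM).1
  have hS := rst_S_sum M v w De hvw hdeg
  have hLNb : LN ≤ lam * δ * Dmin / 2 := by
    have h1 : Xm ^ 6 * (2 * LN) ≤ Xm ^ 6 * (lam * δ * Dmin) := by
      have h2 : δ ^ 2 * Dmin = 32 * (Xm ^ 6 * (lam * δ * Dmin)) := by
        calc δ ^ 2 * Dmin = δ * δ * Dmin := by ring
          _ = (lam * (32 * Xm ^ 6)) * δ * Dmin := by rw [hlamX]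
          _ = 32 * (Xm ^ 6 * (lam * δ * Dmin)) := by ring
      linarith
    have h3 := le_of_mul_le_mul_left h1 (by positivity)
    linarith
  have h4Xm : 4 * Xm ^ 2 ≤ Dmin := by
    have h1 : δ ^ 2 ≤ 1 / 64 := by nlinarith
    have h2 : δ ^ 2 * Dmin ≤ 1 / 64 * Dmin := mul_le_mul_of_nonneg_right h1 hD.le
    have h3 := hpow 2 (by norm_num)
    have h4 : Xm ^ 6 * 1 ≤ Xm ^ 6 * LN := mul_le_mul_of_nonneg_left hLN (by positivity)
    nlinarith
  -- the potential method
  have main := hPR ((R → Γ → ℝ) × (R → Γ → ℝ) × (ℕ → Option Γ)) ((R × Γ) ⊕ Fin M) M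
    (fun j s => rst_P v w K X₀ δ j s)
    (Sum.elim (fun q j s => s.2.1 q.1 q.2 + ∑ i ∈ Ico j M, rst_tm v w K De s.1 q.1 q.2 i)
      (fun i _ s => -edg (v i) (w i) (K i) s.1))
    (Sum.elim (fun _ => Dmin * lam) (fun _ => lam))
    (Sum.elim (fun q => load M v w K De X₀ q.1 q.2 + δ)
      (fun i => -edg (v i) (w i) (K i) X₀ + δ * De i))
    (Sum.elim (fun q j => 16 * Xm ^ 4 * lam ^ 2 * Dmin *
        ((∑ i ∈ range M, (rst_c v w De q.1 (v j) i + rst_c v w De q.1 (w j) i)) / De j))
      (fun i j => 8 * Xm ^ 6 * lam ^ 2 * De i *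
        (rst_S v w De (v i) j + rst_S v w De (w i) j)))
    (Sum.elim (fun _ => M) (fun i => (i : ℕ)))
    (X₀, (fun _ _ => 0), (fun _ => none)) LN ?_ ?_ ?_ ?_ ?_ ?_
  · obtain ⟨⟨X, F, g⟩, hP, _⟩ := main
    refine ⟨g, ?_, ?_⟩
    · intro j hjM
      obtain ⟨γ, h1, h2, h3, h4, _, _⟩ := hP.used j hjM
      exact ⟨γ, h1, h2, h3, h4⟩
    · intro i hi j hj' hne hsh
      exact hP.ne i hi j hj' hne hsh
  · -- initial state
    refine ⟨?_, ?_, ?_, ?_, ?_⟩
    · intro i hi
      exact absurd hi (Nat.not_lt_zero i)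
    · intro i hi
      exact absurd hi (Nat.not_lt_zero i)
    · intro u γ h
      exact h
    · intro u γ
      exact le_refl _
    · intro u γ
      rcases hX₀ u γ with h | h
      · exact Or.inl h
      · refine Or.inr ⟨h.1, ?_⟩
        show 1 / X₀ u γ - (1 + 4 * δ) * 0 ≤ 1 / X₀ u γ
        linarith
  · rintro (q | i)
    · exact mul_pos hD hlam0
    · exact hlam0
  · rw [Fintype.card_sum, Fintype.card_prod, Fintype.card_fin]
    push_cast
    exact hcount
  · rintro (q | i) j _
    · show 0 ≤ 16 * Xm ^ 4 * lam ^ 2 * Dmin *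
        ((∑ i ∈ range M, (rst_c v w De q.1 (v j) i + rst_c v w De q.1 (w j) i)) / De j)
      refine mul_nonneg (by positivity) (div_nonneg (sum_nonneg fun i _ => ?_) (Nat.cast_nonneg _))
      exact add_nonneg (rst_c_nonneg v w De _ _ _) (rst_c_nonneg v w De _ _ _)
    · show 0 ≤ 8 * Xm ^ 6 * lam ^ 2 * De i * (rst_S v w De (v i) j + rst_S v w De (w i) j)
      exact mul_nonneg (by positivity)
        (add_nonneg (rst_S_nonneg v w De _ _) (rst_S_nonneg v w De _ _))
  · -- budgets
    rintro (q | i)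
    · show Dmin * lam * (0 + ∑ i ∈ Ico 0 M, rst_tm v w K De X₀ q.1 q.2 i) +
        ∑ j ∈ range M, 16 * Xm ^ 4 * lam ^ 2 * Dmin *
          ((∑ i ∈ range M, (rst_c v w De q.1 (v j) i + rst_c v w De q.1 (w j) i)) / De j) + LN ≤
        Dmin * lam * (load M v w K De X₀ q.1 q.2 + δ)
      rw [← mul_sum, ← rst_load]
      have h1 := rst_cS M v w De hvw hdeg q.1
      have h2 : 16 * Xm ^ 4 * lam ^ 2 * Dmin * (∑ j ∈ range M,
          (∑ i ∈ range M, (rst_c v w De q.1 (v j) i + rst_c v w De q.1 (w j) i)) / De j) ≤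
          16 * Xm ^ 4 * lam ^ 2 * Dmin * 1 := mul_le_mul_of_nonneg_left h1 (by positivity)
      have h3 : 16 * Xm ^ 4 * lam ^ 2 * Dmin ≤ lam * δ * Dmin / 2 := by
        have h4 := hpow 4 (by norm_num)
        have h5 : 16 * Xm ^ 4 * lam ^ 2 * Dmin ≤ 16 * Xm ^ 6 * lam ^ 2 * Dmin := by
          apply mul_le_mul_of_nonneg_right _ hD.le
          apply mul_le_mul_of_nonneg_right _ (sq_nonneg _)
          linarith
        have h6 : lam * δ * Dmin / 2 = 16 * Xm ^ 6 * lam ^ 2 * Dmin := by
          rw [← hlamX]; ring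
        linarith
      nlinarith
    · show lam * (-edg (v i) (w i) (K i) X₀) + ∑ j ∈ range M, 8 * Xm ^ 6 * lam ^ 2 * De i *
          (rst_S v w De (v i) j + rst_S v w De (w i) j) + LN ≤
        lam * (-edg (v i) (w i) (K i) X₀ + δ * De i)
      rw [← mul_sum, sum_add_distrib]
      have h1 := hS (v i)
      have h2 := hS (w i)
      have hDe := (hj i i.2).2.2
      have hDe0 : (0 : ℝ) < De i := lt_of_lt_of_le hD hDe
      have h3 : 8 * Xm ^ 6 * lam ^ 2 * De i * (∑ j ∈ range M, rst_S v w De (v i) j +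
          ∑ j ∈ range M, rst_S v w De (w i) j) ≤ 8 * Xm ^ 6 * lam ^ 2 * De i * 2 :=
        mul_le_mul_of_nonneg_left (by linarith) (by positivity)
      have h6 : 8 * Xm ^ 6 * lam ^ 2 * De i * 2 = lam * δ * De i / 2 := by
        rw [← hlamX]; ring
      have h7 : lam * δ * Dmin / 2 ≤ lam * δ * De i / 2 := by
        have : lam * δ * Dmin ≤ lam * δ * De i :=
          mul_le_mul_of_nonneg_left hDe (mul_nonneg hlam0.le hδ.le)
        linarith
      nlinarith
  · -- the step
    rintro j hjM ⟨X, F, g⟩ hP hZ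
    have hDej := (hj j hjM).2.2
    have hDe0 : (0 : ℝ) < De j := lt_of_lt_of_le hD hDej
    have hX0 : ∀ u γ, 0 ≤ X u γ := by
      intro u γ
      rcases hP.upd u γ with h | h
      · exact le_of_eq h.symm
      · exact le_trans zero_le_one h.1
    have hXle : ∀ u γ, X u γ = 0 ∨ (1 ≤ X u γ ∧ X u γ ≤ Xm) := by
      intro u γ
      rcases hP.upd u γ with h | h
      · exact Or.inl h
      · refine Or.inr ⟨h.1, ?_⟩
        have h1 : F u γ + ∑ i ∈ Ico j M, rst_tm v w K De X u γ i ≤ load M v w K De X₀ u γ + δ :=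
          hZ (Sum.inl (u, γ)) hjM.le
        have h2 : 0 ≤ ∑ i ∈ Ico j M, rst_tm v w K De X u γ i :=
          sum_nonneg fun i _ => rst_tm_nonneg v w K De X hX0 u γ i
        have hXp : 0 < X u γ := lt_of_lt_of_le one_pos h.1
        rcases hX₀ u γ with h3 | h3
        · exact absurd (hP.zero u γ h3) hXp.ne'
        · have h4 : 1 / X₀ u γ - (1 + 4 * δ) * F u γ ≤ 1 / X u γ := h.2
          have h5 : (1 + 4 * δ) * F u γ ≤ (1 + 4 * δ) * (load M v w K De X₀ u γ + δ) :=
            mul_le_mul_of_nonneg_left (by linarith) (by linarith)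
          have h6 : 1 / Xm ≤ 1 / X u γ := by linarith [h3.2]
          exact (one_div_le_one_div hXm0 hXp).1 h6
    have hedgj : (1 - 2 * δ) * De j ≤ edg (v j) (w j) (K j) X := by
      have h1 : -edg (v j) (w j) (K j) X ≤ -edg (v j) (w j) (K j) X₀ + δ * De j :=
        hZ (Sum.inr ⟨j, hjM⟩) (le_refl _)
      have h2 := hedg j hjM
      nlinarith
    obtain ⟨p, hp, hp2, hpK, hpne, hu1, hu2, hload, he1, he2⟩ :=
      hRS R Γ (v j) (w j) (K j) (De j : ℝ) Xm δ X (hvw j hjM) hXm hδ hδ8 (by linarith)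
        (by rw [(hj j hjM).2.1]) hXle hedgj
    refine ⟨Γ, inferInstance, p, fun a => (xnew (v j) (w j) p X a,
      (fun u γ => F u γ + rst_tm v w K De X u γ j), Function.update g j (some a)), hp, ?_, ?_⟩
    · intro a ha
      exact rst_P_step v w K De X₀ δ j X F g hP (hvw j hjM) p hpK hpne hu1 hu2 a ha
    · rintro (q | i) hji
      · -- loads
        obtain ⟨u, γ⟩ := q
        show ∑ a, p a * Real.exp (Dmin * lam *
            ((F u γ + rst_tm v w K De X u γ j +
              ∑ i ∈ Ico (j + 1) M, rst_tm v w K De (xnew (v j) (w j) p X a) u γ i) -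
            (F u γ + ∑ i ∈ Ico j M, rst_tm v w K De X u γ i))) ≤
          Real.exp (16 * Xm ^ 4 * lam ^ 2 * Dmin *
            ((∑ i ∈ range M, (rst_c v w De u (v j) i + rst_c v w De u (w j) i)) / De j))
        have hsub : Ico (j + 1) M ⊆ range M := by
          intro i hi
          exact mem_range.2 (mem_Ico.1 hi).2
        obtain ⟨αv, hαv⟩ : ∃ α, α = Dmin * ∑ i ∈ Ico (j + 1) M,
          (if γ ∈ K i then rst_c v w De u (v j) i else 0) := ⟨_, rfl⟩
        obtain ⟨αw, hαw⟩ : ∃ α, α = Dmin * ∑ i ∈ Ico (j + 1) M,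
          (if γ ∈ K i then rst_c v w De u (w j) i else 0) := ⟨_, rfl⟩
        have hc0 : ∀ x, 0 ≤ ∑ i ∈ Ico (j + 1) M,
            (if γ ∈ K i then rst_c v w De u x i else 0) := by
          intro x
          refine sum_nonneg fun i _ => ?_
          split_ifs
          · exact rst_c_nonneg v w De _ _ _
          · exact le_refl _
        have hc1 : ∀ x, ∑ i ∈ Ico (j + 1) M,
            (if γ ∈ K i then rst_c v w De u x i else 0) ≤ ∑ i ∈ range M, rst_c v w De u x i := by
          intro x
          calc ∑ i ∈ Ico (j + 1) M, (if γ ∈ K i then rst_c v w De u x i else 0)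
              ≤ ∑ i ∈ Ico (j + 1) M, rst_c v w De u x i := by
                refine sum_le_sum fun i _ => ?_
                split_ifs
                · exact le_refl _
                · exact rst_c_nonneg v w De _ _ _
            _ ≤ ∑ i ∈ range M, rst_c v w De u x i :=
                sum_le_sum_of_subset_of_nonneg hsub fun i _ _ => rst_c_nonneg v w De _ _ _
        have hαv0 : 0 ≤ αv := by rw [hαv]; exact mul_nonneg hD.le (hc0 _)
        have hαw0 : 0 ≤ αw := by rw [hαw]; exact mul_nonneg hD.le (hc0 _)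
        have hαv1 : αv ≤ 1 := by
          rw [hαv]; exact rst_c_le M v w K De Dmin hD hj hdist u (v j) γ _ hsub
        have hαw1 : αw ≤ 1 := by
          rw [hαw]; exact rst_c_le M v w K De Dmin hD hj hdist u (w j) γ _ hsub
        have hαvb : αv ≤ Dmin * ∑ i ∈ range M, rst_c v w De u (v j) i := by
          rw [hαv]; exact mul_le_mul_of_nonneg_left (hc1 _) hD.le
        have hαwb : αw ≤ Dmin * ∑ i ∈ range M, rst_c v w De u (w j) i := by
          rw [hαw]; exact mul_le_mul_of_nonneg_left (hc1 _) hD.le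
        have h := hload γ αv αw lam hαv0 hαv1 hαw0 hαw1 hlam1
        refine le_trans (le_of_eq (sum_congr rfl fun a _ => ?_)) (le_trans h ?_)
        · have hd := rst_diff v w K De X p a j (hvw j hjM) u γ (Ico (j + 1) M)
          have hbot := sum_eq_sum_Ico_succ_bot hjM (fun i => rst_tm v w K De X u γ i)
          have hE : Dmin * lam *
            ((F u γ + rst_tm v w K De X u γ j +
              ∑ i ∈ Ico (j + 1) M, rst_tm v w K De (xnew (v j) (w j) p X a) u γ i) -
            (F u γ + ∑ i ∈ Ico j M, rst_tm v w K De X u γ i)) =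
            lam * (αv * (xnew (v j) (w j) p X a (v j) γ - X (v j) γ) +
              αw * (xnew (v j) (w j) p X a (w j) γ - X (w j) γ)) := by
            rw [hbot, hαv, hαw]
            have hd' : (F u γ + rst_tm v w K De X u γ j +
              ∑ i ∈ Ico (j + 1) M, rst_tm v w K De (xnew (v j) (w j) p X a) u γ i) -
              (F u γ + (rst_tm v w K De X u γ j +
                ∑ i ∈ Ico (j + 1) M, rst_tm v w K De X u γ i)) =
              ∑ i ∈ Ico (j + 1) M, rst_tm v w K De (xnew (v j) (w j) p X a) u γ i -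
                ∑ i ∈ Ico (j + 1) M, rst_tm v w K De X u γ i := by ring
            rw [hd', hd]
            ring
          rw [hE]
        · apply Real.exp_le_exp.2
          have hb : αv ^ 2 + αw ^ 2 ≤
              Dmin * ∑ i ∈ range M, (rst_c v w De u (v j) i + rst_c v w De u (w j) i) := by
            rw [sum_add_distrib, mul_add]
            have h1 : αv ^ 2 ≤ αv := by nlinarith
            have h2 : αw ^ 2 ≤ αw := by nlinarith
            linarith
          calc 16 * Xm ^ 4 * lam ^ 2 * (αv ^ 2 + αw ^ 2) / De j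
              ≤ 16 * Xm ^ 4 * lam ^ 2 *
                (Dmin * ∑ i ∈ range M, (rst_c v w De u (v j) i + rst_c v w De u (w j) i)) /
                  De j := by
                apply div_le_div_of_nonneg_right _ hDe0.le
                exact mul_le_mul_of_nonneg_left hb (by positivity)
            _ = 16 * Xm ^ 4 * lam ^ 2 * Dmin *
                ((∑ i ∈ range M, (rst_c v w De u (v j) i + rst_c v w De u (w j) i)) /
                  De j) := by ring
      · -- edges
        have hji' : j < (i : ℕ) := hji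
        show ∑ a, p a * Real.exp (lam *
            (-edg (v i) (w i) (K i) (xnew (v j) (w j) p X a) - -edg (v i) (w i) (K i) X)) ≤
          Real.exp (8 * Xm ^ 6 * lam ^ 2 * De i *
            (rst_S v w De (v i) j + rst_S v w De (w i) j))
        have hne : (i : ℕ) ≠ j := Nat.ne_of_gt hji'
        have hd := hdist i i.2 j hjM hne
        have hvwi := hvw i i.2
        have hKi : ((K i).card : ℝ) = De i := by rw [(hj i i.2).2.1]
        have hcomm : ∀ (x y : R) (K' : Finset Γ) (Y : R → Γ → ℝ), edg x y K' Y = edg y x K' Y := by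
          intro x y K' Y
          unfold edg
          exact sum_congr rfl fun γ _ => mul_comm _ _
        have hneg : ∀ a b : ℝ, lam * (-a - -b) = -lam * (a - b) := by intro a b; ring
        -- a bound valid if one of the four coincidences holds
        have hbd : (v j = v i ∨ w j = v i ∨ v j = w i ∨ w j = w i) →
            8 * Xm ^ 6 * (-lam) ^ 2 * ((K i).card : ℝ) / De j ≤
              8 * Xm ^ 6 * lam ^ 2 * De i * (rst_S v w De (v i) j + rst_S v w De (w i) j) := by
          intro hsh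
          have h1 : 1 / (De j : ℝ) ≤ rst_S v w De (v i) j + rst_S v w De (w i) j := by
            unfold rst_S
            rw [← add_div]
            apply div_le_div_of_nonneg_right _ hDe0.le
            rcases hsh with h | h | h | h
            · rw [if_pos h]; split_ifs <;> norm_num
            · rw [if_pos h]; split_ifs <;> norm_num
            · rw [if_pos h]; split_ifs <;> norm_num
            · rw [if_pos h]; split_ifs <;> norm_num
          rw [hKi]
          calc 8 * Xm ^ 6 * (-lam) ^ 2 * (De i : ℝ) / De j =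
              8 * Xm ^ 6 * lam ^ 2 * De i * (1 / (De j : ℝ)) := by ring
            _ ≤ _ := mul_le_mul_of_nonneg_left h1 (by positivity)
        simp only [hneg]
        by_cases c1 : v i = v j
        · have h2 : w i ≠ w j := fun h => hd (Or.inl ⟨c1, h⟩)
          have h1 : w i ≠ v j := fun h => hvwi (c1.trans h.symm)
          have h := he1 (w i) (K i) (-lam) h1 h2 hlam2
          rw [c1]
          refine le_trans h (Real.exp_le_exp.2 ?_)
          have h3 := hbd (Or.inl c1.symm)
          rw [c1] at h3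
          exact h3
        · by_cases c2 : v i = w j
          · have h1 : w i ≠ v j := fun h => hd (Or.inr ⟨c2, h⟩)
            have h2 : w i ≠ w j := fun h => hvwi (c2.trans h.symm)
            have h := he2 (w i) (K i) (-lam) h1 h2 hlam2
            rw [c2]
            refine le_trans h (Real.exp_le_exp.2 ?_)
            have h3 := hbd (Or.inr (Or.inl c2.symm))
            rw [c2] at h3
            exact h3
          · by_cases c3 : w i = v j
            · have h := he1 (v i) (K i) (-lam) c1 c2 hlam2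
              simp only [hcomm (v i) (w i)]
              rw [c3]
              refine le_trans h (Real.exp_le_exp.2 ?_)
              have h3 := hbd (Or.inr (Or.inr (Or.inl c3.symm)))
              rw [c3] at h3
              exact h3
            · by_cases c4 : w i = w j
              · have h := he2 (v i) (K i) (-lam) c1 c2 hlam2
                simp only [hcomm (v i) (w i)]
                rw [c4]
                refine le_trans h (Real.exp_le_exp.2 ?_)
                have h3 := hbd (Or.inr (Or.inr (Or.inr c4.symm)))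
                rw [c4] at h3
                exact h3
              · have hsame : ∀ a, edg (v i) (w i) (K i) (xnew (v j) (w j) p X a) =
                    edg (v i) (w i) (K i) X := by
                  intro a
                  unfold edg
                  refine sum_congr rfl fun γ _ => ?_
                  rw [rst_xnew_other _ _ _ _ _ _ _ c1 c2, rst_xnew_other _ _ _ _ _ _ _ c3 c4]
                simp only [hsame, sub_self, mul_zero, Real.exp_zero, mul_one]
                rw [hp.2]
                apply Real.one_le_exp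
                exact mul_nonneg (by positivity)
                  (add_nonneg (rst_S_nonneg v w De _ _) (rst_S_nonneg v w De _ _))

end Pool.Agent.Helper21.LQ
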